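import Pool.Agent.LibFR83.Defs

/-!
Row C2: the second cohomology vanishes.
-/

set_option autoImplicit false

namespace Pool.Agent.LibFR83

open Pool.Agent.LibZIS Pool.Agent.LibCod83 Pool.Agent.LibDehn83 Filter Topology
open scoped Pointwise

variable {G : Type} [Group G] [DecidableEq G] (c : Dt G)

/-- the second cohomology vanishes. -/
theorem coh2' (hV : ThmV2 c.S) (μ ρ : ℕ → ℕ) (hM : ∀ r, c.M r = c.L r + μ r + ρ r)
    (hL : Tendsto c.L atTop atTop) (hμ : ∀ r, (μ r : ℝ) ≤ Real.exp (c.L r))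
    (hfill : ∀ K : ℕ, ∀ᶠ r in atTop, ∀ w : List G, Loop c.S w → w.length ≤ K * c.L r →
      Fil c.S w (Real.exp (μ r)) (ρ r)) :
    ¬ Nontrivial (groupCohomology (LibDehn83.RM c) 2) := by
  rw [not_nontrivial_iff_subsingleton]
  have key : ∀ x : groupCohomology (LibDehn83.RM c) 2, x = 0 := by
    intro x
    refine groupCohomology.H2_induction_on (A := LibDehn83.RM c) (C := fun x => x = 0) x fun f => ?_
    rw [groupCohomology.H2π_eq_zero_iff]
    have hf : ∀ g h k : G, repM c g (f.1 (h, k)) - f.1 (g * h, k) + f.1 (g, h * k) -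
      f.1 (g, h) = 0 := (groupCohomology.mem_cocycles₂_def f.1).1 f.2
    choose u hu using fun p : G × G => mk_surj c (f.1 p)
    obtain ⟨𝒯, h𝒯, hK⟩ := hV
    -- the exponents
    choose e he using fun p : G × G => (u p).2
    obtain ⟨K, hK⟩ := hK ((∑ p ∈ RS c.S, e p) + (RS c.S).card)
    -- the defects
    have hT : ∀ T : Tri G →₀ ℤ, ∃ k : ℕ, T ∈ 𝒯 → ∀ r, ∀ x ∈ Far c.S (c.V r) (k * c.M r),
        vz (P3z c.S fun p => (u p).1 r) T x = 0 := by
      intro T
      by_cases hT : T ∈ 𝒯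
      · have h1 := evT_cycle (repM c) f.1 hf T (h𝒯 T hT).2
        rw [P3_evT c u f.1 hu T, mk_eq_zero_iff, mem_NN] at h1
        obtain ⟨k, hk⟩ := h1
        refine ⟨k, fun _ r x hx => ?_⟩
        rw [P3_vz c (h𝒯 T hT).1]
        exact hk r x hx
      · exact ⟨0, fun h => absurd h hT⟩
    choose k hk using hT
    have hk' : ∀ r, ∀ T ∈ 𝒯, ∀ x ∈ Far c.S (c.V r) ((∑ T ∈ 𝒯, k T) * c.M r),
        vz (P3z c.S fun p => (u p).1 r) T x = 0 := by
      intro r T hT x hx
      refine hk T hT r x (far_anti c.sys _ ?_ hx)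
      exact Nat.mul_le_mul_right _ (Finset.single_le_sum (fun _ _ => Nat.zero_le _) hT)
    -- the size
    have hsq : ∀ r, ∑ q ∈ (P3z c.S fun p => (u p).1 r).support,
        ((P3z c.S (fun p => (u p).1 r) q : ℤ) : ℝ) ^ 2 ≤
        Real.exp (((∑ p ∈ RS c.S, e p) + (RS c.S).card : ℕ) * c.L r) := by
      intro r
      have hL1 : (1 : ℝ) ≤ c.L r := by exact_mod_cast c.one_le r
      refine (P3z_sq c.S _).trans ?_
      have h1 : ∀ p ∈ RS c.S, sq ((u p).1 r) ≤
          Real.exp ((∑ p ∈ RS c.S, e p : ℕ) * c.L r) := fun p hp => by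
        refine (he p r).trans (Real.exp_le_exp.2 ?_)
        refine mul_le_mul_of_nonneg_right ?_ (by linarith)
        exact_mod_cast Finset.single_le_sum (fun _ _ => Nat.zero_le _) hp
      refine (Finset.sum_le_sum h1).trans ?_
      rw [Finset.sum_const, nsmul_eq_mul]
      have h2 : ((RS c.S).card : ℝ) ≤ Real.exp ((RS c.S).card * c.L r) := by
        have h3 := Real.add_one_le_exp (((RS c.S).card : ℝ) * c.L r)
        have h4 : ((RS c.S).card : ℝ) * 1 ≤ (RS c.S).card * c.L r :=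
          mul_le_mul_of_nonneg_left hL1 (Nat.cast_nonneg _)
        linarith
      refine (mul_le_mul_of_nonneg_right h2 (Real.exp_pos _).le).trans (le_of_eq ?_)
      rw [← Real.exp_add]
      congr 1
      push_cast
      ring
    -- the primitives
    have hN : ∀ r, ∃ N : Ed G →₀ ℤ, ∑ q ∈ N.support, ((N q : ℤ) : ℝ) ^ 2 ≤
        Real.exp (K * c.L r) ∧ (K ≤ c.L r → (∀ w : List G, Loop c.S w → w.length ≤ K * c.L r →
          Fil c.S w (Real.exp (μ r)) (ρ r)) → ∀ p ∈ RS c.S,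
        ∀ x ∈ Far c.S (c.V r) ((∑ T ∈ 𝒯, k T) * c.M r + K * (c.L r + μ r) + ρ r),
          (u p).1 r x = N (p.1, x) + N (p.2, p.1⁻¹ * x) - N (p.1 * p.2, x)) := by
      intro r
      by_cases h : K ≤ c.L r ∧ ∀ w : List G, Loop c.S w → w.length ≤ K * c.L r →
          Fil c.S w (Real.exp (μ r)) (ρ r)
      · obtain ⟨N, -, hN, hN'⟩ := hK (c.L r) h.1 (c.V r) _ (μ r) (ρ r) _ (hμ r) (P3z_inS c.S _)
          (hsq r) (hk' r) h.2
        refine ⟨N, hN, fun _ _ p hp x hx => ?_⟩
        rw [← hN' p hp x hx, P3z_apply, if_pos hp]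
      · refine ⟨0, ?_, fun h1 h2 => absurd ⟨h1, h2⟩ h⟩
        rw [Finsupp.support_zero, Finset.sum_empty]
        exact (Real.exp_pos _).le
    choose N hN1 hN2 using hN
    have hn : ∀ s : G, ∃ n : ZZ c, ∀ r x, n.1 r x = N r (s, x) := fun s =>
      ⟨⟨fun r => P3n (N r) s, K, fun r => (P3n_sq _ _).trans (hN1 r)⟩, fun _ _ => rfl⟩
    choose n hn using hn
    obtain ⟨n', hn'⟩ := exists_cob (repM c) c.sys f.1 hf (fun s => mk c (n s)) (by
      intro s t hs ht hst
      have hp : (s, t) ∈ RS c.S := by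
        rw [RS, Finset.mem_filter, Finset.mem_product]
        exact ⟨⟨hs, ht⟩, hst⟩
      show f.1 (s, t) = repM c s (mk c (n t)) - mk c (n (s * t)) + mk c (n s)
      rw [← hu, repM_mk]
      have h5 : mk c (LtZ c s (n t)) - mk c (n (s * t)) + mk c (n s) =
        mk c (LtZ c s (n t) - n (s * t) + n s) := rfl
      rw [h5, ← sub_eq_zero]
      have h6 : mk c (u (s, t)) - mk c (LtZ c s (n t) - n (s * t) + n s) =
        mk c (u (s, t) - (LtZ c s (n t) - n (s * t) + n s)) := rfl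
      rw [h6, mk_eq_zero_iff]
      refine mem_NN_of_eventually c _ ((∑ T ∈ 𝒯, k T) + K + 1) ?_
      filter_upwards [hfill K, hL.eventually_ge_atTop K] with r hr1 hr2 x hx
      have h7 : (u (s, t) - (LtZ c s (n t) - n (s * t) + n s)).1 r x =
        (u (s, t)).1 r x - ((LtZ c s (n t)).1 r x - (n (s * t)).1 r x + (n s).1 r x) := rfl
      rw [h7, LtZ_val, hn, hn, hn]
      have h8 := hN2 r hr2 hr1 (s, t) hp x (far_anti c.sys _ (by
        have h9 := hM r
        have h10 : K * (c.L r + μ r) ≤ K * c.M r := Nat.mul_le_mul_left _ (by omega)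
        nlinarith) hx)
      rw [h8]
      show N r (s, x) + N r (t, s⁻¹ * x) - N r (s * t, x) -
        (N r (t, s⁻¹ * x) - N r (s * t, x) + N r (s, x)) = 0
      ring)
    refine ⟨n', ?_⟩
    funext ⟨g, h⟩
    exact (hn' g h).symm
  exact ⟨fun a b => by rw [key a, key b]⟩

end Pool.Agent.LibFR83
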