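import Pool.Agent.LibDehn83.Defs
import Pool.Agent.LibFi47.Defs

/-!
Fillings of controlled norm and radius.
-/

set_option autoImplicit false

namespace Pool.Agent.LibFR83

open Pool.Agent.LibDehn83 Pool.Agent.LibFi47 CategoryTheory
open scoped Pointwise

variable {G : Type} [Group G] [DecidableEq G]

variable {I J : Type}

/-- The chain `y` lies within the distance `ρ` of the chain `b`. -/
def Near (S : Finset G) (y : I →₀ MonoidAlgebra ℤ G) (b : J →₀ MonoidAlgebra ℤ G) (ρ : ℕ) :
    Prop :=
  ∀ i, ∀ g ∈ (y i).coeff.support, ∃ j, ∃ h ∈ (b j).coeff.support, g⁻¹ * h ∈ S ^ ρ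

/-- There is `K` such that the following holds for all `L ≥ K`, `μ ≤ exp L` and `Φ`: if every loop
of length at most `K L` bounds mass at most `exp μ` within the distance `Φ`, then every boundary of
degree `m` which bounds a chain of squared norm at most `exp L` bounds a chain of squared norm at
most `exp (K L)` within the distance `K (L + μ + Φ)` of the boundary. -/
def Thin (S : Finset G) (P : ProjectiveResolution (Rep.trivial ℤ G ℤ)) (m : ℕ)
    (e : P.complex.X (m + 1) ≅ Rep.free ℤ G I) (e' : P.complex.X m ≅ Rep.free ℤ G J) : Prop :=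
  ∃ K : ℕ, ∀ L : ℕ, K ≤ L → ∀ μ Φ : ℕ, (μ : ℝ) ≤ Real.exp L →
    (∀ w : List G, Loop S w → w.length ≤ K * L → Fil S w (Real.exp μ) Φ) →
    ∀ x : I →₀ MonoidAlgebra ℤ G, sqF x ≤ Real.exp L → ∃ y : I →₀ MonoidAlgebra ℤ G,
      bdy P m e e' y = bdy P m e e' x ∧ sqF y ≤ Real.exp (K * L) ∧
        Near S y (bdy P m e e' x) (K * (L + μ + Φ))

end Pool.Agent.LibFR83
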