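import Pool.Agent.LibDehn83.Final
import Pool.Agent.LibFi47.Main
import Pool.Agent.LibFR83.Thin

/-!
Filling radius: definitions.
-/

set_option autoImplicit false

namespace Pool.Agent.LibFR83

open Pool.Agent.LibZIS Pool.Agent.LibCod83 Pool.Agent.LibQF83 Pool.Agent.LibDehn83
open Pool.Agent.LibFi47 CategoryTheory Filter Topology
open scoped Pointwise

variable {G : Type} [Group G] [DecidableEq G]

/-- the conclusion of the main analytic theorem: the loops of length `K L` have fillings of mass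
`e^μ`, `μ ≤ e^L`, and radius `Φ`. -/
def ThmV2 (S : Finset G) : Prop :=
  ∃ 𝒯 : Finset (Tri G →₀ ℤ), (∀ T ∈ 𝒯, InS S T ∧ bdry T = 0) ∧
    ∀ C : ℕ, ∃ K : ℕ, ∀ L : ℕ, K ≤ L → ∀ (V : Set G) (D μ Φ : ℕ) (z : Tri G →₀ ℤ),
      (μ : ℝ) ≤ Real.exp L → InS S z →
      ∑ q ∈ z.support, ((z q : ℤ) : ℝ) ^ 2 ≤ Real.exp (C * L) →
      (∀ T ∈ 𝒯, ∀ x ∈ Far S V D, vz z T x = 0) →
      (∀ w : List G, Loop S w → w.length ≤ K * L → Fil S w (Real.exp μ) Φ) →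
      ∃ n : Ed G →₀ ℤ, (∀ q ∈ n.support, q.1 ∈ S) ∧
        ∑ q ∈ n.support, ((n q : ℤ) : ℝ) ^ 2 ≤ Real.exp (K * L) ∧
        ∀ p ∈ RS S, ∀ x ∈ Far S V (D + K * (L + μ) + Φ),
          z (p, x) = n (p.1, x) + n (p.2, p.1⁻¹ * x) - n (p.1 * p.2, x)

end Pool.Agent.LibFR83
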