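import Pool.Agent.LibFR83.Defs

/-!
Row F2: subpolynomial filling radius.
-/

set_option autoImplicit false

namespace Pool.Agent.LibFR83

open Pool.Agent.LibZIS Pool.Agent.LibCod83 Pool.Agent.LibQF83 Pool.Agent.LibDehn83 Filter Topology
open Pool.Agent.LibFi47 CategoryTheory
open scoped Pointwise

variable {G : Type} [Group G] [DecidableEq G]

section

variable {I J : Type}

/-- Every loop of length `ℓ` bounds a sum of triangles of mass at most `exp (A exp (ε ℓ))` within the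
distance `A exp (ε ℓ)`: the Dehn function is at most doubly exponential and the filling radius is
subexponential. -/
def SubFil (S : Finset G) : Prop :=
  ∀ ε : ℝ, 0 < ε → ∃ A : ℕ, ∀ w : List G, Loop S w → ∃ ρ : ℕ,
    (ρ : ℝ) ≤ A * Real.exp (ε * w.length) ∧ Fil S w (Real.exp (A * Real.exp (ε * w.length))) ρ

/-- For every `ε > 0` every boundary of degree `m` bounds a chain whose norm is polynomial in the norm
`N` of any given filling, within the distance `A N ^ ε`. -/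
def SubRad (S : Finset G) (P : ProjectiveResolution (Rep.trivial ℤ G ℤ)) (m : ℕ)
    (e : P.complex.X (m + 1) ≅ Rep.free ℤ G I) (e' : P.complex.X m ≅ Rep.free ℤ G J) : Prop :=
  ∀ ε : ℝ, 0 < ε → ∃ A : ℕ, ∀ x : I →₀ MonoidAlgebra ℤ G,
    ∃ (y : I →₀ MonoidAlgebra ℤ G) (ρ : ℕ), bdy P m e e' y = bdy P m e e' x ∧
      sqF y ≤ A * (1 + sqF x) ^ A ∧ (ρ : ℝ) ≤ A * (1 + sqF x) ^ ε ∧
        Near S y (bdy P m e e' x) ρ

end

variable {I J : Type} [Fintype I] [Fintype J]

theorem subRad {S : Finset G} (hS : Sys S) (hF : SubFil S)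
    (P : ProjectiveResolution (Rep.trivial ℤ G ℤ)) (m : ℕ)
    (e : P.complex.X (m + 1) ≅ Rep.free ℤ G I) (e' : P.complex.X m ≅ Rep.free ℤ G J)
    (h : Thin S P m e e') : SubRad S P m e e' := by
  intro ε hε
  obtain ⟨K, hK⟩ := h
  have hK1 : (0 : ℝ) < K + 1 := by positivity
  set ε' : ℝ := min (1 / 2) (ε / 2) / (K + 1) with hε'
  have hmin : 0 < min (1 / 2) (ε / 2) := lt_min (by norm_num) (by linarith)
  have hε'0 : 0 < ε' := div_pos hmin hK1
  have hKε : ε' * K ≤ min (1 / 2) (ε / 2) := by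
    rw [hε', div_mul_eq_mul_div, div_le_iff₀ hK1]
    nlinarith
  have hKε1 : ε' * K ≤ 1 / 2 := hKε.trans (min_le_left _ _)
  have hKε2 : ε' * K ≤ ε / 2 := hKε.trans (min_le_right _ _)
  obtain ⟨A', hA'⟩ := hF ε' hε'0
  set B : ℝ := Real.exp (K + 2 * A' + 1) with hB
  have hB0 : 0 < B := Real.exp_pos _
  obtain ⟨A, hA⟩ := exists_nat_ge
    (B ^ K + K + K * (2 / ε + 2 * A' + 2) * B ^ (ε / 2))
  have hc0 : 0 ≤ (K : ℝ) * (2 / ε + 2 * A' + 2) * B ^ (ε / 2) := by positivity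
  have hA1 : B ^ K ≤ A := by
    have : (0 : ℝ) ≤ K := Nat.cast_nonneg _
    linarith
  have hA2 : K ≤ A := by
    have h1 : (0 : ℝ) ≤ B ^ K := by positivity
    have h2 : (K : ℝ) ≤ A := by linarith
    exact_mod_cast h2
  have hA3 : (K : ℝ) * (2 / ε + 2 * A' + 2) * B ^ (ε / 2) ≤ A := by
    have h1 : (0 : ℝ) ≤ B ^ K := by positivity
    have : (0 : ℝ) ≤ K := Nat.cast_nonneg _
    linarith
  refine ⟨A, fun x => ?_⟩
  have hs0 : 0 ≤ sqF x := FC3.sqF_nonneg x
  have hs1 : (1 : ℝ) ≤ 1 + sqF x := by linarith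
  have hspos : (0 : ℝ) < 1 + sqF x := by linarith
  have hlog : 0 ≤ Real.log (1 + sqF x) := Real.log_nonneg hs1
  set L : ℕ := max K (max (2 * A') ⌈Real.log (1 + sqF x)⌉₊) with hL
  have hLK : K ≤ L := le_max_left _ _
  have hLA : 2 * A' ≤ L := (le_max_left _ _).trans (le_max_right _ _)
  have hLs : Real.log (1 + sqF x) ≤ L := (Nat.le_ceil _).trans (by
    exact_mod_cast (le_max_right _ _).trans (le_max_right _ _))
  have hLle : (L : ℝ) ≤ K + 2 * A' + 1 + Real.log (1 + sqF x) := by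
    have h1 : L ≤ K + (2 * A' + ⌈Real.log (1 + sqF x)⌉₊) := by
      rw [hL]
      omega
    have h2 : (⌈Real.log (1 + sqF x)⌉₊ : ℝ) < Real.log (1 + sqF x) + 1 := Nat.ceil_lt_add_one hlog
    have h3 : (L : ℝ) ≤ K + (2 * A' + (⌈Real.log (1 + sqF x)⌉₊ : ℝ)) := by exact_mod_cast h1
    linarith
  have hL0 : (0 : ℝ) ≤ L := Nat.cast_nonneg _
  have hexpL : Real.exp L ≤ B * (1 + sqF x) := by
    calc Real.exp L ≤ Real.exp (K + 2 * A' + 1 + Real.log (1 + sqF x)) := Real.exp_le_exp.2 hLle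
      _ = B * (1 + sqF x) := by rw [Real.exp_add, Real.exp_log hspos]
  set X : ℝ := Real.exp (ε' * (K * L)) with hX
  have hX0 : 0 < X := Real.exp_pos _
  have hX1 : X ≤ Real.exp (L / 2) := by
    apply Real.exp_le_exp.2
    calc ε' * (K * L) = ε' * K * L := by ring
      _ ≤ 1 / 2 * L := mul_le_mul_of_nonneg_right hKε1 hL0
      _ = L / 2 := by ring
  have hX2 : X ≤ Real.exp (ε / 2 * L) := by
    apply Real.exp_le_exp.2
    calc ε' * (K * L) = ε' * K * L := by ring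
      _ ≤ ε / 2 * L := mul_le_mul_of_nonneg_right hKε2 hL0
  have hA'X : 0 ≤ (A' : ℝ) * X := by positivity
  set μ : ℕ := ⌈(A' : ℝ) * X⌉₊ with hμ
  have hμ1 : (A' : ℝ) * X ≤ μ := Nat.le_ceil _
  have hμ2 : (μ : ℝ) ≤ A' * X + 1 := (Nat.ceil_lt_add_one hA'X).le
  have hμL : (μ : ℝ) ≤ Real.exp L := by
    have h1 : (A' : ℝ) + 1 ≤ Real.exp (L / 2) := by
      have h2 := Real.add_one_le_exp ((L : ℝ) / 2)
      have h3 : (2 * A' : ℝ) ≤ L := by exact_mod_cast hLA
      linarith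
    have h4 : (1 : ℝ) ≤ Real.exp (L / 2) := Real.one_le_exp (by positivity)
    have h5 : Real.exp L = Real.exp (L / 2) * Real.exp (L / 2) := by
      rw [← Real.exp_add]
      congr 1
      ring
    have h6 : (A' : ℝ) * X ≤ A' * Real.exp (L / 2) :=
      mul_le_mul_of_nonneg_left hX1 (Nat.cast_nonneg _)
    rw [h5]
    nlinarith
  obtain ⟨y, hy1, hy2, hy3⟩ := hK L hLK μ μ hμL (fun w hw hl => by
    obtain ⟨ρ, hρ, hfil⟩ := hA' w hw
    have h1 : Real.exp (ε' * w.length) ≤ X := by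
      apply Real.exp_le_exp.2
      refine mul_le_mul_of_nonneg_left ?_ hε'0.le
      exact_mod_cast hl
    have h2 : (A' : ℝ) * Real.exp (ε' * w.length) ≤ μ :=
      (mul_le_mul_of_nonneg_left h1 (Nat.cast_nonneg _)).trans hμ1
    refine Fil.mono hS hfil (Real.exp_le_exp.2 h2) ?_
    exact_mod_cast hρ.trans h2) x (by
      calc sqF x ≤ 1 + sqF x := by linarith
        _ = Real.exp (Real.log (1 + sqF x)) := (Real.exp_log hspos).symm
        _ ≤ Real.exp L := Real.exp_le_exp.2 hLs)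
  refine ⟨y, K * (L + μ + μ), hy1, ?_, ?_, hy3⟩
  · calc sqF y ≤ Real.exp (K * L) := hy2
      _ = Real.exp L ^ K := by rw [Real.exp_nat_mul]
      _ ≤ (B * (1 + sqF x)) ^ K := pow_le_pow_left₀ (Real.exp_pos _).le hexpL K
      _ = B ^ K * (1 + sqF x) ^ K := mul_pow _ _ _
      _ ≤ A * (1 + sqF x) ^ A :=
        mul_le_mul hA1 (pow_le_pow_right₀ hs1 hA2) (by positivity) (Nat.cast_nonneg _)
  · set Y : ℝ := Real.exp (ε / 2 * L) with hY
    have hY1 : (1 : ℝ) ≤ Y := Real.one_le_exp (by positivity)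
    have hLY : (L : ℝ) ≤ 2 / ε * Y := by
      have h1 := Real.add_one_le_exp (ε / 2 * (L : ℝ))
      have h2 : (L : ℝ) = 2 / ε * (ε / 2 * L) := by
        field_simp
      calc (L : ℝ) = 2 / ε * (ε / 2 * L) := h2
        _ ≤ 2 / ε * Y := mul_le_mul_of_nonneg_left (by linarith) (by positivity)
    have hYle : Y ≤ B ^ (ε / 2) * (1 + sqF x) ^ ε := by
      calc Y = Real.exp L ^ (ε / 2) := by
            rw [hY, ← Real.exp_mul]
            congr 1
            ring
        _ ≤ (B * (1 + sqF x)) ^ (ε / 2) :=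
            Real.rpow_le_rpow (Real.exp_pos _).le hexpL (by positivity)
        _ = B ^ (ε / 2) * (1 + sqF x) ^ (ε / 2) := Real.mul_rpow hB0.le hspos.le
        _ ≤ B ^ (ε / 2) * (1 + sqF x) ^ ε := by
            refine mul_le_mul_of_nonneg_left ?_ (by positivity)
            exact Real.rpow_le_rpow_of_exponent_le hs1 (by linarith)
    have hρ : ((K * (L + μ + μ) : ℕ) : ℝ) ≤ K * (2 / ε + 2 * A' + 2) * Y := by
      push_cast
      rw [mul_assoc]
      refine mul_le_mul_of_nonneg_left ?_ (Nat.cast_nonneg _)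
      have h1 : (A' : ℝ) * X ≤ A' * Y := mul_le_mul_of_nonneg_left hX2 (Nat.cast_nonneg _)
      nlinarith
    refine hρ.trans ?_
    calc (K : ℝ) * (2 / ε + 2 * A' + 2) * Y ≤
          K * (2 / ε + 2 * A' + 2) * (B ^ (ε / 2) * (1 + sqF x) ^ ε) :=
          mul_le_mul_of_nonneg_left hYle (by positivity)
      _ = K * (2 / ε + 2 * A' + 2) * B ^ (ε / 2) * (1 + sqF x) ^ ε := by ring
      _ ≤ A * (1 + sqF x) ^ ε := mul_le_mul_of_nonneg_right hA3 (by positivity)

end Pool.Agent.LibFR83
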