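import Pool.Agent.LibFR83.Defs

/-!
Row H2: fillings near the boundaries from the vanishing of the homology of the module.
-/

set_option autoImplicit false

namespace Pool.Agent.LibFR83

open Pool.Agent.LibDehn83 Filter Topology
open Pool.Agent.LibFi47 CategoryTheory Pool.Agent.LibFi47.FC1 Pool.Agent.LibFi47.FC2
open Pool.Agent.LibFi47.FC3 Pool.Agent.LibFi47.FL
open scoped Pointwise

variable {G : Type} [Group G] [DecidableEq G] (c : Dt G) {I J : Type}

/-- the coefficient functions, as finitely supported functions. -/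
noncomputable def cfZ (x : I →₀ MonoidAlgebra ℤ G) (i : I) : G →₀ ℤ :=
  Finsupp.equivMapDomain (Equiv.inv G) (x i).coeff

omit [DecidableEq G] in
lemma cfZ_apply (x : I →₀ MonoidAlgebra ℤ G) (i : I) (h : G) :
    cfZ x i h = (x i).coeff h⁻¹ := rfl

omit [DecidableEq G] in
lemma cfZ_cast (x : I →₀ MonoidAlgebra ℤ G) (i : I) (h : G) :
    ((cfZ x i h : ℤ) : ℝ) = cf x i h := rfl

lemma sq_eq_tsum (u : G →₀ ℤ) : sq u = ∑' x, ((u x : ℤ) : ℝ) ^ 2 := by
  unfold LibDehn83.sq
  symm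
  apply tsum_eq_sum
  intro x hx
  rw [Finsupp.notMem_support_iff.1 hx]
  simp

/-- the real values at the index `r`. -/
noncomputable def evR (r : ℕ) : ZZ c →+ (G → ℝ) where
  toFun u := fun x => ((u.1 r x : ℤ) : ℝ)
  map_zero' := by
    funext x
    show (((0 : G →₀ ℤ) x : ℤ) : ℝ) = 0
    simp
  map_add' u v := by
    funext x
    show (((u.1 r + v.1 r : G →₀ ℤ) x : ℤ) : ℝ) = _
    rw [Finsupp.add_apply]
    push_cast
    rfl

lemma evR_apply (r : ℕ) (u : ZZ c) (x : G) : evR c r u x = ((u.1 r x : ℤ) : ℝ) := rfl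

lemma evR_ap (r : ℕ) (q : G →₀ ℤ) (u : ZZ c) :
    evR c r (ap (LtZ c) q u) = ap LibRD47.Tf q (evR c r u) :=
  ap_comm (LtZ c) LibRD47.Tf (evR c r) (fun g a => by
    funext x
    rw [evR_apply, LtZ_val]
    rfl) q u

/-- the projection. -/
noncomputable def mkH : ZZ c →+ MM c := QuotientAddGroup.mk' (NN c)

lemma mkH_apply (u : ZZ c) : mkH c u = mk c u := rfl

lemma mkH_ap (q : G →₀ ℤ) (u : ZZ c) :
    mkH c (ap (LtZ c) q u) = ap (HX2.rh (LibDehn83.RM c)) q (mkH c u) :=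
  ap_comm (LtZ c) (HX2.rh (LibDehn83.RM c)) (mkH c) (fun _ _ => rfl) q u

variable [Fintype I] [Fintype J]

/-- chains with boundary near the special sets are homologous to chains near the special sets. -/
theorem hom2' (D : (I →₀ MonoidAlgebra ℤ G) →+ (J →₀ MonoidAlgebra ℤ G)) (hD : Eqv D)
    (hH : HC (HX2.rh (LibDehn83.RM c)) D) (T : ℕ → (I →₀ MonoidAlgebra ℤ G)) (C : ℕ)
    (hT : ∀ r, sqF (T r) ≤ Real.exp (C * c.L r))
    (hb : ∀ r j, ∀ h ∈ (D (T r) j).coeff.support, h⁻¹ ∈ c.V r) :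
    ∃ (K : ℕ) (T' : ℕ → (I →₀ MonoidAlgebra ℤ G)), (∀ r, D (T' r) = D (T r)) ∧
      (∀ r, sqF (T' r) ≤ Real.exp (K * c.L r)) ∧
      ∀ r i, ∀ g ∈ (T' r i).coeff.support, g⁻¹ ∉ Far c.S (c.V r) (K * c.M r) := by
  classical
  have hXm : ∀ i r, sq (cfZ (T r) i) ≤ Real.exp (C * c.L r) := by
    intro i r
    refine le_trans ?_ (hT r)
    rw [sq_eq_tsum, sqF_eq]
    exact Finset.single_le_sum (f := fun i => ∑' h, cf (T r) i h ^ 2)
      (fun i _ => tsum_nonneg fun h => sq_nonneg _) (Finset.mem_univ i)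
  let X : I → ZZ c := fun i => ⟨fun r => cfZ (T r) i, C, fun r => hXm i r⟩
  have hXr : ∀ i r, evR c r (X i) = cf (T r) i := fun _ _ => rfl
  have hcyc : ∀ j, ∑ i, ap (HX2.rh (LibDehn83.RM c)) (D (bs G i) j).coeff (mkH c (X i)) = 0 := by
    intro j
    have h1 : ∑ i, ap (HX2.rh (LibDehn83.RM c)) (D (bs G i) j).coeff (mkH c (X i)) =
        mkH c (∑ i, ap (LtZ c) (D (bs G i) j).coeff (X i)) := by
      rw [map_sum]
      exact Finset.sum_congr rfl fun i _ => (mkH_ap c _ _).symm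
    rw [h1, mkH_apply, mk_eq_zero_iff, mem_NN]
    refine ⟨0, fun r x hx => ?_⟩
    have h2 : evR c r (∑ i, ap (LtZ c) (D (bs G i) j).coeff (X i)) = cf (D (T r)) j := by
      rw [map_sum, cf_D D hD]
      refine Finset.sum_congr rfl fun i _ => ?_
      rw [evR_ap, hXr]
    have h3 : (((∑ i, ap (LtZ c) (D (bs G i) j).coeff (X i)).1 r x : ℤ) : ℝ) =
        (((D (T r) j).coeff x⁻¹ : ℤ) : ℝ) := congrFun h2 x
    have h4 := Int.cast_injective h3
    rw [h4]
    by_contra h5
    have h6 := hb r j x⁻¹ (Finsupp.mem_support_iff.2 h5)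
    rw [inv_inv] at h6
    apply hx x h6
    rw [mul_inv_cancel, Nat.zero_mul, pow_zero]
    exact Finset.one_mem_one
  obtain ⟨n, k, w, hk, hw⟩ := hH (fun i => mkH c (X i)) hcyc
  choose v hv using fun s => mk_surj c (w s)
  have hY : ∀ s r, ∃ y : I →₀ MonoidAlgebra ℤ G, D y = 0 ∧
      ∀ i, cf y i = ap LibRD47.Tf (k s i).coeff (evR c r (v s)) := by
    intro s r
    refine exists_conv D hD (k s) (hk s) (evR c r (v s)) (fun x => ⟨_, rfl⟩) ?_
    apply summable_of_ne_finset_zero (s := ((v s).1 r).support)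
    intro x hx
    rw [evR_apply, Finsupp.notMem_support_iff.1 hx]
    simp
  choose y hy hyc using hY
  let U : I → ZZ c := fun i => X i - ∑ s, ap (LtZ c) (k s i).coeff (v s)
  have hU : ∀ i, U i ∈ NN c := by
    intro i
    rw [← mk_eq_zero_iff, ← mkH_apply, map_sub, map_sum, sub_eq_zero, hw i]
    refine Finset.sum_congr rfl fun s _ => ?_
    rw [mkH_ap, mkH_apply, hv]
  have key : ∀ r i, cf (T r - ∑ s, y s r) i = evR c r (U i) := by
    intro r i
    rw [cf_sub, cf_sum, map_sub, map_sum, hXr]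
    refine congrArg₂ (· - ·) rfl (Finset.sum_congr rfl fun s _ => ?_)
    rw [hyc, evR_ap]
  choose C' hC' using fun i => (U i).2
  choose k' hk' using fun i => (mem_NN c _).1 (hU i)
  set K := ∑ i, C' i + Fintype.card I + ∑ i, k' i with hK
  refine ⟨K, fun r => T r - ∑ s, y s r, fun r => ?_, fun r => ?_, fun r i g hg hfar => ?_⟩
  · rw [map_sub, map_sum, Finset.sum_eq_zero fun s _ => hy s r, sub_zero]
  · have hL1 : (1 : ℝ) ≤ c.L r := by exact_mod_cast c.one_le r
    rw [sqF_eq]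
    have h1 : ∀ i, ∑' h, cf (T r - ∑ s, y s r) i h ^ 2 ≤ Real.exp ((∑ i, C' i : ℕ) * c.L r) := by
      intro i
      have h2 : ∑' h, cf (T r - ∑ s, y s r) i h ^ 2 = sq ((U i).1 r) := by
        rw [sq_eq_tsum, key]
        rfl
      rw [h2]
      refine (hC' i r).trans (Real.exp_le_exp.2 ?_)
      refine mul_le_mul_of_nonneg_right ?_ (by linarith)
      exact_mod_cast Finset.single_le_sum (f := C') (fun _ _ => Nat.zero_le _) (Finset.mem_univ i)
    refine (Finset.sum_le_sum fun i _ => h1 i).trans ?_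
    rw [Finset.sum_const, nsmul_eq_mul, Finset.card_univ]
    have h2 : (Fintype.card I : ℝ) ≤ Real.exp (Fintype.card I * c.L r) := by
      have h3 := Real.add_one_le_exp ((Fintype.card I : ℝ) * c.L r)
      have h4 : (Fintype.card I : ℝ) * 1 ≤ Fintype.card I * c.L r :=
        mul_le_mul_of_nonneg_left hL1 (Nat.cast_nonneg _)
      linarith
    refine (mul_le_mul_of_nonneg_right h2 (Real.exp_pos _).le).trans ?_
    rw [← Real.exp_add]
    apply Real.exp_le_exp.2
    rw [← add_mul]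
    refine mul_le_mul_of_nonneg_right ?_ (by linarith)
    rw [hK]
    push_cast
    have : (0 : ℝ) ≤ ∑ i, (k' i : ℝ) := Finset.sum_nonneg fun _ _ => Nat.cast_nonneg _
    linarith
  · have h1 : (U i).1 r g⁻¹ = 0 := by
      refine hk' i r g⁻¹ (far_anti c.sys _ (Nat.mul_le_mul_right _ ?_) hfar)
      rw [hK]
      have := Finset.single_le_sum (f := k') (fun _ _ => Nat.zero_le _) (Finset.mem_univ i)
      omega
    have h2 : cf (T r - ∑ s, y s r) i g⁻¹ = 0 := by
      rw [key, evR_apply, h1]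
      simp
    have h3 : (((T r - ∑ s, y s r : I →₀ MonoidAlgebra ℤ G) i).coeff g⁻¹⁻¹ : ℤ) = 0 :=
      Int.cast_injective (α := ℝ) (h2.trans Int.cast_zero.symm)
    rw [inv_inv] at h3
    exact (Finsupp.mem_support_iff.1 hg) h3

end Pool.Agent.LibFR83
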