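import Pool.Agent.LibFR83.Defs

/-!
Row S2: the geometric theorem.
-/

set_option autoImplicit false

namespace Pool.Agent.LibFR83

open Pool.Agent.LibZIS Pool.Agent.LibCod83 Pool.Agent.LibQF83 Pool.Agent.LibDehn83 Filter Topology
open Pool.Agent.LibFi47 CategoryTheory
open scoped Pointwise

variable {G : Type} [Group G] [DecidableEq G] {I J : Type} [Fintype I] [Fintype J]

theorem star2 {S : Finset G} (hS : Sys S)
    (P : ProjectiveResolution (Rep.trivial ℤ G ℤ)) (m : ℕ)
    (e : P.complex.X (m + 1) ≅ Rep.free ℤ G I) (e' : P.complex.X m ≅ Rep.free ℤ G J)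
    -- the module has no homology
    (hc : ∀ (c : Dt G) (μ ρ : ℕ → ℕ), c.S = S → (∀ r, c.M r = c.L r + μ r + ρ r) →
      Tendsto c.L atTop atTop → (∀ r, (μ r : ℝ) ≤ Real.exp (c.L r)) →
      (∀ K : ℕ, ∀ᶠ r in atTop, ∀ w : List G, Loop c.S w → w.length ≤ K * c.L r →
        Fil c.S w (Real.exp (μ r)) (ρ r)) →
      HC (HX2.rh (LibDehn83.RM c)) (bdyH P m e e'))
    (hh : ∀ c : Dt G, HC (HX2.rh (LibDehn83.RM c)) (bdyH P m e e') →
      ∀ (T : ℕ → (I →₀ MonoidAlgebra ℤ G)) (C : ℕ), (∀ r, sqF (T r) ≤ Real.exp (C * c.L r)) →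
      (∀ r j, ∀ h ∈ (bdyH P m e e' (T r) j).coeff.support, h⁻¹ ∈ c.V r) →
      ∃ (K : ℕ) (T' : ℕ → (I →₀ MonoidAlgebra ℤ G)),
        (∀ r, bdyH P m e e' (T' r) = bdyH P m e e' (T r)) ∧
        (∀ r, sqF (T' r) ≤ Real.exp (K * c.L r)) ∧
        ∀ r i, ∀ g ∈ (T' r i).coeff.support, g⁻¹ ∉ Far c.S (c.V r) (K * c.M r)) :
    Thin S P m e e' := by
  by_contra hcon
  unfold Thin at hcon
  push Not at hcon
  choose L hL μ Φ hμ hfill x hx hno using fun r : ℕ => hcon (r + 1)
  have hne : ∀ r, bdyH P m e e' (x r) ≠ 0 := by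
    intro r h0
    refine hno r 0 ?_ ?_ ?_
    · have h1 : bdyH P m e e' 0 = bdyH P m e e' (x r) := by rw [map_zero, h0]
      exact h1
    · have h1 : sqF (0 : I →₀ MonoidAlgebra ℤ G) = 0 := by simp [sqF]
      rw [h1]
      exact (Real.exp_pos _).le
    · intro i g hg
      exact absurd rfl (Finsupp.mem_support_iff.1 hg)
  let c : Dt G :=
    { S := S
      sys := hS
      L := L
      one_le := fun r => le_trans (by omega) (hL r)
      V := fun r => {v | ∃ j, v⁻¹ ∈ (bdyH P m e e' (x r) j).coeff.support}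
      ne := fun r => by
        obtain ⟨j, hj⟩ := Finsupp.ne_iff.1 (hne r)
        have h1 : (bdyH P m e e' (x r) j).coeff ≠ 0 := by
          intro h2
          apply hj
          apply MonoidAlgebra.coeff_injective
          exact h2
        obtain ⟨g, hg⟩ := Finsupp.support_nonempty_iff.2 h1
        exact ⟨g⁻¹, j, by rwa [inv_inv]⟩
      M := fun r => L r + μ r + Φ r
      le := fun r => by omega }
  have hLt : Tendsto c.L atTop atTop := by
    refine tendsto_atTop_mono (fun r => ?_) tendsto_id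
    show r ≤ L r
    have := hL r
    omega
  have hHC := hc c μ Φ rfl (fun _ => rfl) hLt hμ (by
    intro K
    filter_upwards [eventually_ge_atTop K] with r hr w hw hl
    exact hfill r w hw (hl.trans (Nat.mul_le_mul_right _ (by omega))))
  obtain ⟨K, T', h1, h2, h3⟩ := hh c hHC x 1 (fun r => by
    rw [Nat.cast_one, one_mul]
    exact hx r) (fun r j h hh => ⟨j, by rwa [inv_inv]⟩)
  refine hno K (T' K) (h1 K) ?_ ?_
  · refine (h2 K).trans (Real.exp_le_exp.2 ?_)
    refine mul_le_mul_of_nonneg_right ?_ (Nat.cast_nonneg _)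
    push_cast
    linarith
  · intro i g hg
    have h4 := h3 K i g hg
    simp only [Far, Set.mem_ofPred_eq] at h4
    push Not at h4
    obtain ⟨v, ⟨j, hv⟩, h5⟩ := h4
    exact ⟨j, v⁻¹, hv, pow_mono hS (Nat.mul_le_mul_right _ (by omega)) h5⟩

end Pool.Agent.LibFR83
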