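import Pool.Agent.LibFR83.V2
import Pool.Agent.LibFR83.C2
import Pool.Agent.LibFR83.H2
import Pool.Agent.LibFR83.S2

/-!
The filling radius of the boundaries, in terms of the filling radius of the loops.
-/

set_option autoImplicit false

namespace Pool.Agent.LibFR83

open Pool.Agent.LibZIS Pool.Agent.LibCod83 Pool.Agent.LibQF83 Pool.Agent.LibDehn83 Filter Topology
open Pool.Agent.LibFi47 CategoryTheory
open scoped Pointwise

variable {G : Type} [Group G] [DecidableEq G]

/-- `f` grows subexponentially. -/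
def SubExp (f : ℕ → ℕ) : Prop :=
  ∀ ε : ℝ, 0 < ε → ∃ A : ℝ, ∀ ℓ : ℕ, (f ℓ : ℝ) ≤ A * Real.exp (ε * ℓ)

/-- There is `K` such that every boundary of degree `m` which bounds a chain of squared norm at most
`exp N`, `1 ≤ N`, bounds a chain of squared norm at most `exp (K N)` within the distance
`K (N + f (K N))` of the boundary. -/
def Rad {I J : Type} (S : Finset G) (f : ℕ → ℕ) (P : ProjectiveResolution (Rep.trivial ℤ G ℤ))
    (m : ℕ) (e : P.complex.X (m + 1) ≅ Rep.free ℤ G I) (e' : P.complex.X m ≅ Rep.free ℤ G J) :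
    Prop :=
  ∃ K : ℕ, ∀ N : ℕ, 1 ≤ N → ∀ x : I →₀ MonoidAlgebra ℤ G, sqF x ≤ Real.exp N →
    ∃ y : I →₀ MonoidAlgebra ℤ G, bdy P m e e' y = bdy P m e e' x ∧ sqF y ≤ Real.exp (K * N) ∧
      Near S y (bdy P m e e' x) (K * (N + f (K * N)))

theorem Near.mono {I J : Type} {S : Finset G} (hS : Sys S) {y : I →₀ MonoidAlgebra ℤ G}
    {b : J →₀ MonoidAlgebra ℤ G} {ρ ρ' : ℕ} (h : Near S y b ρ) (hρ : ρ ≤ ρ') : Near S y b ρ' := by
  intro i g hg
  obtain ⟨j, k, hk, h1⟩ := h i g hg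
  exact ⟨j, k, hk, pow_mono hS hρ h1⟩

theorem rad_of_star {I J : Type} {S : Finset G} (hS : Sys S) {f : ℕ → ℕ} (hf : Monotone f)
    (hsub : SubExp f) (hF : ∀ w : List G, Loop S w → Fil S w (Real.exp (f w.length)) (f w.length))
    (P : ProjectiveResolution (Rep.trivial ℤ G ℤ)) (m : ℕ)
    (e : P.complex.X (m + 1) ≅ Rep.free ℤ G I) (e' : P.complex.X m ≅ Rep.free ℤ G J)
    (h : Thin S P m e e') : Rad S f P m e e' := by
  obtain ⟨K, hK⟩ := h
  have hK1 : (0 : ℝ) < K + 1 := by positivity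
  obtain ⟨A', hA'⟩ := hsub (1 / (2 * (K + 1))) (by positivity)
  obtain ⟨A, hA⟩ := exists_nat_ge (2 * (|A'| + 1))
  have key : ∀ L : ℕ, A ≤ L → (f (K * L) : ℝ) ≤ Real.exp L := by
    intro L hL
    have hL' : (2 * (|A'| + 1) : ℝ) ≤ L := hA.trans (by exact_mod_cast hL)
    have h1 : (1 / (2 * (K + 1)) : ℝ) * ((K * L : ℕ) : ℝ) ≤ L / 2 := by
      push_cast
      rw [div_mul_eq_mul_div, div_le_div_iff₀ (by positivity) (by norm_num)]
      have : (0 : ℝ) ≤ L := Nat.cast_nonneg _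
      nlinarith
    have h2 : Real.exp ((1 / (2 * (K + 1)) : ℝ) * ((K * L : ℕ) : ℝ)) ≤ Real.exp (L / 2) :=
      Real.exp_le_exp.2 h1
    have h3 : (L : ℝ) / 2 + 1 ≤ Real.exp (L / 2) := Real.add_one_le_exp _
    have h4 : A' ≤ Real.exp (L / 2) := by
      have := le_abs_self A'
      linarith
    calc (f (K * L) : ℝ) ≤ A' * Real.exp ((1 / (2 * (K + 1)) : ℝ) * ((K * L : ℕ) : ℝ)) := hA' _
      _ ≤ |A'| * Real.exp ((1 / (2 * (K + 1)) : ℝ) * ((K * L : ℕ) : ℝ)) :=
          mul_le_mul_of_nonneg_right (le_abs_self _) (Real.exp_pos _).le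
      _ ≤ |A'| * Real.exp (L / 2) := mul_le_mul_of_nonneg_left h2 (abs_nonneg _)
      _ ≤ Real.exp (L / 2) * Real.exp (L / 2) := by
          refine mul_le_mul_of_nonneg_right ?_ (Real.exp_pos _).le
          linarith
      _ = Real.exp L := by
          rw [← Real.exp_add]
          congr 1
          ring
  set B : ℕ := K + A + 1 with hB
  have hBK : K ≤ B := by omega
  have hBA : A ≤ B := by omega
  have hB1 : 1 ≤ B := by omega
  refine ⟨2 * K * B + B, fun N hN x hx => ?_⟩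
  have hBL : B ≤ N * B := Nat.le_mul_of_pos_left _ hN
  have hNL : N ≤ N * B := Nat.le_mul_of_pos_right _ (by omega)
  obtain ⟨y, hy1, hy2, hy3⟩ := hK (N * B) (hBK.trans hBL) (f (K * (N * B))) (f (K * (N * B)))
    (key _ (hBA.trans hBL)) (fun w hw hl => by
      refine Fil.mono hS (hF w hw) (Real.exp_le_exp.2 ?_) (hf hl)
      exact_mod_cast hf hl) x (hx.trans (Real.exp_le_exp.2 (by exact_mod_cast hNL)))
  have hKle : K * (N * B) ≤ (2 * K * B + B) * N := by nlinarith
  refine ⟨y, hy1, hy2.trans (Real.exp_le_exp.2 (by exact_mod_cast hKle)), Near.mono hS hy3 ?_⟩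
  have hfle : f (K * (N * B)) ≤ f ((2 * K * B + B) * N) := hf hKle
  set F : ℕ := f ((2 * K * B + B) * N)
  calc K * (N * B + f (K * (N * B)) + f (K * (N * B))) ≤ K * (N * B + F + F) := by
        refine Nat.mul_le_mul_left _ ?_
        omega
    _ ≤ (2 * K * B + B) * (N + F) := by
        have h1 : K * F ≤ K * B * F := by
          have := Nat.mul_le_mul_left (K * F) hB1
          nlinarith
        nlinarith [Nat.zero_le (B * N), Nat.zero_le (B * F), Nat.zero_le (K * B * N)]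

universe v

variable {E : Type v} [TopologicalSpace E]
  [PathConnectedSpace E] [MulAction G E] [ContinuousConstSMul G E]

theorem main_rad (hfree : ∀ (g : G) (e : E), g • e = e → g = 1) (hE : H1Zero E) (m : ℕ)
    (hG : ∀ M : Rep.{0} ℤ G, Nonempty (groupCohomology M 2 ≅ groupHomology M (m + 1)))
    {S : Finset G} (hS : Sys S) {f : ℕ → ℕ} (hf : Monotone f) (hsub : SubExp f)
    (hF : ∀ w : List G, Loop S w → Fil S w (Real.exp (f w.length)) (f w.length))
    (P : ProjectiveResolution (Rep.trivial ℤ G ℤ)) {I J : Type} [Finite I] [Finite J]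
    (e : P.complex.X (m + 1) ≅ Rep.free ℤ G I) (e' : P.complex.X m ≅ Rep.free ℤ G J)
    (hrad : ¬ Rad S f P m e e') :
    ∃ i, i ≤ 2 ∧ Nontrivial (Hgy (lam G) E i) := by
  classical
  by_contra hcon
  apply hrad
  have _ : Fintype I := Fintype.ofFinite I
  have _ : Fintype J := Fintype.ofFinite J
  have hno : ∀ i, i ≤ 2 → ¬ Nontrivial (Hgy (lam G) E i) := fun i hi h => hcon ⟨i, hi, h⟩
  have hV : ThmV2 S := thmV2 hS hfree hE (hno 0 (by norm_num)) (hno 1 (by norm_num)) (hno 2 le_rfl)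
  refine rad_of_star hS hf hsub hF P m e e' (star2 hS P m e e' ?_ ?_)
  · intro c μ ρ hc hM hL hμ hfill
    refine HX3.hc_of (LibDehn83.RM c) P m e e' fun hn => ?_
    have h2 := coh2' c (hc ▸ hV) μ ρ hM hL hμ hfill
    obtain ⟨e2⟩ := hG (LibDehn83.RM c)
    exact h2 e2.toLinearEquiv.toEquiv.nontrivial
  · intro c hHC T C hT hb
    exact hom2' c (bdyH P m e e') (eqv_bdyH P m e e') hHC T C hT hb

end Pool.Agent.LibFR83
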