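import Pool.Agent.LibFR83.V2
import Pool.Agent.LibFR83.C2
import Pool.Agent.LibFR83.H2
import Pool.Agent.LibFR83.S2
import Pool.Agent.LibFR83.F2

/-!
The main theorem on the filling radius.
-/

set_option autoImplicit false

namespace Pool.Agent.LibFR83

open Pool.Agent.LibZIS Pool.Agent.LibCod83 Pool.Agent.LibQF83 Pool.Agent.LibDehn83 Filter Topology
open Pool.Agent.LibFi47 CategoryTheory
open scoped Pointwise

universe v

variable {G : Type} [Group G] [DecidableEq G] {E : Type v} [TopologicalSpace E]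
  [PathConnectedSpace E] [MulAction G E] [ContinuousConstSMul G E]

theorem main_fr (hfree : ∀ (g : G) (e : E), g • e = e → g = 1) (hE : H1Zero E) (m : ℕ)
    (hG : ∀ M : Rep.{0} ℤ G, Nonempty (groupCohomology M 2 ≅ groupHomology M (m + 1)))
    {S : Finset G} (hS : Sys S) (hF : SubFil S)
    (P : ProjectiveResolution (Rep.trivial ℤ G ℤ)) {I J : Type} [Finite I] [Finite J]
    (e : P.complex.X (m + 1) ≅ Rep.free ℤ G I) (e' : P.complex.X m ≅ Rep.free ℤ G J)
    (hrad : ¬ SubRad S P m e e') :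
    ∃ i, i ≤ 2 ∧ Nontrivial (Hgy (lam G) E i) := by
  classical
  by_contra hcon
  apply hrad
  have _ : Fintype I := Fintype.ofFinite I
  have _ : Fintype J := Fintype.ofFinite J
  have hno : ∀ i, i ≤ 2 → ¬ Nontrivial (Hgy (lam G) E i) := fun i hi h => hcon ⟨i, hi, h⟩
  have hV : ThmV2 S := thmV2 hS hfree hE (hno 0 (by norm_num)) (hno 1 (by norm_num)) (hno 2 le_rfl)
  refine subRad hS hF P m e e' (star2 hS P m e e' ?_ ?_)
  · intro c μ ρ hc hM hL hμ hfill
    refine HX3.hc_of (LibDehn83.RM c) P m e e' fun hn => ?_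
    have h2 := coh2' c (hc ▸ hV) μ ρ hM hL hμ hfill
    obtain ⟨e2⟩ := hG (LibDehn83.RM c)
    exact h2 e2.toLinearEquiv.toEquiv.nontrivial
  · intro c hHC T C hT hb
    exact hom2' c (bdyH P m e e') (eqv_bdyH P m e e') hHC T C hT hb

end Pool.Agent.LibFR83
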