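import Pool.Agent.LibFR83.Defs

/-!
Row P1: real primitives of increasing precision.
-/

set_option autoImplicit false

namespace Pool.Agent.LibFR83

open Pool.Agent.LibZIS Pool.Agent.LibCod83 Pool.Agent.LibQF83 Pool.Agent.LibDehn83
open scoped Pointwise

variable {G : Type} [Group G] [DecidableEq G]

/-- as `LibDehn83.real_primitive`, for all numbers of steps at the same time. -/
theorem real_primitive2 {S : Finset G} (hS : Sys S) (𝒯 : Finset (Tri G →₀ ℤ))
    (h𝒯 : ∀ T ∈ 𝒯, InS S T ∧ bdry T = 0) (t : G → G × G → MA G)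
    (α : G × G → (Tri G →₀ ℤ) → MA G) (X : G × G → G × G → MA G)
    (hX : ∀ p ∈ RS S, ∀ q ∈ RS S, ((RS S).card : ℝ) * ‖TT (X p q)‖ ≤ 1 / 4)
    (hid : ∀ p ∈ RS S, ∀ q ∈ RS S,
      (if p = q then (1 : MA G) else 0) = t p.1 q + og G p.1 * t p.2 q - t (p.1 * p.2) q +
          ∑ T ∈ 𝒯, α p T * cycA (og G) T q + X p q) :
    ∃ (R0 : ℕ) (A : ℝ), 1 ≤ A ∧ ∀ (F : Finset G) (z : G × G → Raw.L2 G),
      (∀ p ∈ RS S, SF F (z p)) → ∃ β : ℕ → G → Raw.L2 G,
        (∀ J, ∀ g ∈ S, SF (S ^ (R0 * (J + 1)) * F) (β J g) ∧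
          ‖β J g‖ ≤ A * (J + 1) * ∑ p ∈ RS S, ‖z p‖) ∧
        ∀ (V : Set G) (D : ℕ), (∀ T ∈ 𝒯, ∀ x ∈ Far S V D, vl S z T x = 0) →
          (∀ J, ∑ p ∈ RS S, ‖cut (Far S V (D + R0 * (J + 1))) (z p - d1 (β J) p)‖ ≤
            (1 / 4) ^ J * ∑ p ∈ RS S, ‖z p‖) ∧
          ∀ J J' : ℕ, J' ≤ J → ∀ g ∈ S,
            ‖cut (Far S V (D + R0 * (J + 1))) (β J g - β J' g)‖ ≤
              A * (1 / 4) ^ J' * ∑ p ∈ RS S, ‖z p‖ := by
  classical
  obtain ⟨n, hn⟩ := exists_subset_pow hS
    ((S ×ˢ RS S).biUnion (fun q => (t q.1 q.2).coeff.support) ∪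
      (RS S ×ˢ 𝒯).biUnion (fun q => (α q.1 q.2).coeff.support) ∪
      (RS S ×ˢ RS S).biUnion (fun q => (X q.1 q.2).coeff.support))
  have ht : ∀ g ∈ S, ∀ q ∈ RS S, (t g q).coeff.support ⊆ S ^ n := by
    intro g hg q hq x hx
    exact hn (Finset.mem_union_left _ (Finset.mem_union_left _
      (Finset.mem_biUnion.2 ⟨(g, q), Finset.mem_product.2 ⟨hg, hq⟩, hx⟩)))
  have hα : ∀ p ∈ RS S, ∀ T ∈ 𝒯, (α p T).coeff.support ⊆ S ^ n := by
    intro p hp T hT x hx
    exact hn (Finset.mem_union_left _ (Finset.mem_union_right _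
      (Finset.mem_biUnion.2 ⟨(p, T), Finset.mem_product.2 ⟨hp, hT⟩, hx⟩)))
  have hXs : ∀ p ∈ RS S, ∀ q ∈ RS S, (X p q).coeff.support ⊆ S ^ n := by
    intro p hp q hq x hx
    exact hn (Finset.mem_union_right _
      (Finset.mem_biUnion.2 ⟨(p, q), Finset.mem_product.2 ⟨hp, hq⟩, hx⟩))
  set C1 : ℝ := ∑ p ∈ RS S, ∑ T ∈ 𝒯, ‖TT (α p T)‖ * ∑ q ∈ RS S, ‖TT (cycA (og G) T q)‖ with hC1
  have hC10 : 0 ≤ C1 := Finset.sum_nonneg fun p _ => Finset.sum_nonneg fun T _ =>
    mul_nonneg (norm_nonneg _) (Finset.sum_nonneg fun q _ => norm_nonneg _)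
  set C2 : ℝ := ∑ g ∈ S, ∑ q ∈ RS S, ‖TT (t g q)‖ with hC2
  have hC20 : 0 ≤ C2 := Finset.sum_nonneg fun p _ => Finset.sum_nonneg fun T _ => norm_nonneg _
  refine ⟨n + 2, 1 + C2 * (2 + 2 * C1), ?_, ?_⟩
  · have : 0 ≤ C2 * (2 + 2 * C1) := by positivity
    linarith
  intro F z hz
  set M : (G × G → Raw.L2 G) → ℝ := fun w => ∑ p ∈ RS S, ‖w p‖ with hM
  have hM0 : ∀ w, 0 ≤ M w := fun w => Finset.sum_nonneg fun p _ => norm_nonneg _
  have hle : ∀ (w : G × G → Raw.L2 G), ∀ q ∈ RS S, ‖w q‖ ≤ M w := fun w q hq =>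
    Finset.single_le_sum (f := fun q => ‖w q‖) (fun p _ => norm_nonneg _) hq
  have hvl : ∀ (w : G × G → Raw.L2 G) (T : Tri G →₀ ℤ),
      ‖vl S w T‖ ≤ (∑ q ∈ RS S, ‖TT (cycA (og G) T q)‖) * M w := by
    intro w T
    unfold vl
    refine (norm_sum_le _ _).trans ?_
    rw [Finset.sum_mul]
    refine Finset.sum_le_sum fun q hq => ?_
    refine (ContinuousLinearMap.le_opNorm _ _).trans ?_
    exact mul_le_mul_of_nonneg_left (hle w q hq) (norm_nonneg _)
  have hh : ∀ (w : G × G → Raw.L2 G), ∀ g ∈ S, ‖Rh S t w g‖ ≤ C2 * M w := by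
    intro w g hg
    unfold Rh
    refine (norm_sum_le _ _).trans ?_
    have h1 : ∑ q ∈ RS S, ‖TT (t g q) (w q)‖ ≤ (∑ q ∈ RS S, ‖TT (t g q)‖) * M w := by
      rw [Finset.sum_mul]
      refine Finset.sum_le_sum fun q hq => ?_
      refine (ContinuousLinearMap.le_opNorm _ _).trans ?_
      exact mul_le_mul_of_nonneg_left (hle w q hq) (norm_nonneg _)
    refine h1.trans (mul_le_mul_of_nonneg_right ?_ (hM0 w))
    exact Finset.single_le_sum (f := fun g => ∑ q ∈ RS S, ‖TT (t g q)‖)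
      (fun g _ => Finset.sum_nonneg fun q _ => norm_nonneg _) hg
  have hXsum : ∀ c : G × G → ℝ, (∀ q, 0 ≤ c q) →
      ∑ p ∈ RS S, ∑ q ∈ RS S, ‖TT (X p q)‖ * c q ≤ 1 / 4 * ∑ q ∈ RS S, c q := by
    intro c hc
    rw [Finset.sum_comm, Finset.mul_sum]
    refine Finset.sum_le_sum fun q hq => ?_
    rw [← Finset.sum_mul]
    refine mul_le_mul_of_nonneg_right ?_ (hc q)
    have hpos : (0 : ℝ) < (RS S).card := by
      exact_mod_cast Finset.card_pos.2 ⟨q, hq⟩
    have h1 : ∀ p ∈ RS S, ‖TT (X p q)‖ ≤ 1 / 4 / (RS S).card := by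
      intro p hp
      rw [le_div_iff₀ hpos, mul_comm]
      exact hX p hp q hq
    refine (Finset.sum_le_sum h1).trans ?_
    rw [Finset.sum_const, nsmul_eq_mul, mul_div_cancel₀ _ hpos.ne']
  set Φ : (G × G → Raw.L2 G) → (G × G → Raw.L2 G) := fun w p => w p - d1 (Rh S t w) p with hΦ
  set Z : ℕ → (G × G → Raw.L2 G) := fun j => Φ^[j] z with hZ
  have hZ0 : Z 0 = z := rfl
  have hZs : ∀ j p, Z (j + 1) p = Z j p - d1 (Rh S t (Z j)) p := by
    intro j p
    simp only [hZ, Function.iterate_succ_apply']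
    rfl
  have hvlZ : ∀ j, ∀ T ∈ 𝒯, vl S (Z j) T = vl S z T := by
    intro j T hT
    induction j with
    | zero => rw [hZ0]
    | succ j ih =>
      have h1 : Z (j + 1) = fun p => Z j p - d1 (Rh S t (Z j)) p := funext (hZs j)
      rw [h1, R_vl_sub, R_vl_d1 (h𝒯 T hT).1 (h𝒯 T hT).2, sub_zero, ih]
  have hZid : ∀ j, ∀ p ∈ RS S, Z (j + 1) p =
      ∑ T ∈ 𝒯, TT (α p T) (vl S z T) + ∑ q ∈ RS S, TT (X p q) (Z j q) := by
    intro j p hp
    rw [hZs, R_id hid (Z j) hp]
    congr 1
    apply Finset.sum_congr rfl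
    intro T hT
    rw [hvlZ j T hT]
  have hMZ : ∀ j, M (Z j) ≤ (1 + 2 * C1) * M z := by
    intro j
    induction j with
    | zero =>
      rw [hZ0]
      nlinarith [hM0 z, mul_nonneg hC10 (hM0 z)]
    | succ j ih =>
      have h1 : M (Z (j + 1)) ≤ C1 * M z + 1 / 4 * M (Z j) := by
        have h2 : ∀ p ∈ RS S, ‖Z (j + 1) p‖ ≤
            ∑ T ∈ 𝒯, ‖TT (α p T)‖ * (∑ q ∈ RS S, ‖TT (cycA (og G) T q)‖) * M z +
            ∑ q ∈ RS S, ‖TT (X p q)‖ * ‖Z j q‖ := by
          intro p hp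
          rw [hZid j p hp]
          refine (norm_add_le _ _).trans (add_le_add ?_ ?_)
          · refine (norm_sum_le _ _).trans (Finset.sum_le_sum fun T _ => ?_)
            refine (ContinuousLinearMap.le_opNorm _ _).trans ?_
            rw [mul_assoc]
            exact mul_le_mul_of_nonneg_left (hvl z T) (norm_nonneg _)
          · refine (norm_sum_le _ _).trans (Finset.sum_le_sum fun q _ => ?_)
            exact ContinuousLinearMap.le_opNorm _ _
        refine (Finset.sum_le_sum h2).trans ?_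
        rw [Finset.sum_add_distrib]
        refine add_le_add (le_of_eq ?_) (hXsum (fun q => ‖Z j q‖) fun q => norm_nonneg _)
        rw [hC1, Finset.sum_mul]
        apply Finset.sum_congr rfl
        intro p _
        rw [Finset.sum_mul]
      nlinarith [hM0 z, mul_nonneg hC10 (hM0 z)]
  have hSFZ : ∀ j, ∀ p ∈ RS S, SF (S ^ ((n + 1) * j) * F) (Z j p) := by
    intro j
    induction j with
    | zero =>
      intro p hp
      rw [hZ0, mul_zero, pow_zero, one_mul]
      exact hz p hp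
    | succ j ih =>
      intro p hp
      have hp' : p.1 ∈ S ∧ p.2 ∈ S ∧ p.1 * p.2 ∈ S := by
        have := Finset.mem_filter.1 hp
        exact ⟨(Finset.mem_product.1 this.1).1, (Finset.mem_product.1 this.1).2, this.2⟩
      have e1 : S ^ n * (S ^ ((n + 1) * j) * F) = S ^ (n + (n + 1) * j) * F := by
        rw [← mul_assoc, ← pow_add]
      have e2 : S * (S ^ (n + (n + 1) * j) * F) = S ^ ((n + 1) * (j + 1)) * F := by
        rw [← mul_assoc, ← pow_succ']
        congr 2
        ring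
      have h1 : ∀ g ∈ S, SF (S ^ (n + (n + 1) * j) * F) (Rh S t (Z j) g) := by
        intro g hg
        rw [← e1]
        exact R_SF_Rh ht ih hg
      have hm1 : S ^ (n + (n + 1) * j) * F ⊆ S ^ ((n + 1) * (j + 1)) * F :=
        R_sub_mul hS (by nlinarith)
      have hm2 : S ^ ((n + 1) * j) * F ⊆ S ^ ((n + 1) * (j + 1)) * F :=
        R_sub_mul hS (by nlinarith)
      rw [hZs]
      refine ((ih p hp).mono hm2).sub ?_
      unfold d1
      refine SF.sub (SF.add ((h1 _ hp'.1).mono hm1) ?_) ((h1 _ hp'.2.2).mono hm1)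
      rw [← e2]
      exact R_SF_tr hp'.1 (h1 _ hp'.2.1)
  set β : ℕ → G → Raw.L2 G := fun j g => ∑ i ∈ Finset.range j, Rh S t (Z i) g with hβ
  have hβZ : ∀ j p, z p - d1 (β j) p = Z j p := by
    intro j
    induction j with
    | zero =>
      intro p
      rw [hZ0]
      simp [hβ, d1]
    | succ j ih =>
      intro p
      have h1 : β (j + 1) = fun g => β j g + Rh S t (Z j) g := by
        funext g
        simp only [hβ]
        rw [Finset.sum_range_succ]
      rw [h1, R_d1_add, hZs, ← ih p]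
      abel
  refine ⟨β, fun J => ?_, ?_⟩
  · intro g hg
    constructor
    · refine SF.sum fun i hi => ?_
      have hi' := Finset.mem_range.1 hi
      have h1 := R_SF_Rh ht (hSFZ i) hg
      rw [← mul_assoc, ← pow_add] at h1
      refine h1.mono (R_sub_mul hS ?_)
      nlinarith
    · refine (norm_sum_le _ _).trans ?_
      have h1 : ∀ i ∈ Finset.range J, ‖Rh S t (Z i) g‖ ≤ C2 * ((1 + 2 * C1) * M z) := by
        intro i _
        exact (hh (Z i) g hg).trans (mul_le_mul_of_nonneg_left (hMZ i) hC20)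
      refine (Finset.sum_le_sum h1).trans ?_
      rw [Finset.sum_const, Finset.card_range, nsmul_eq_mul]
      have h2 : 0 ≤ C2 * ((1 + 2 * C1) * M z) := by
        have := hM0 z
        positivity
      have h3 : (0 : ℝ) ≤ (J + 1) * M z := mul_nonneg (by positivity) (hM0 z)
      have h4 : 0 ≤ C2 * ((J + 1) * M z) := mul_nonneg hC20 h3
      show (J : ℝ) * (C2 * ((1 + 2 * C1) * M z)) ≤ (1 + C2 * (2 + 2 * C1)) * (J + 1) * M z
      nlinarith
  · intro V D hV
    have hloc : ∀ j, ∑ p ∈ RS S, ‖cut (Far S V (D + n * j)) (Z j p)‖ ≤ (1 / 4) ^ j * M z := by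
      intro j
      induction j with
      | zero =>
        rw [pow_zero, one_mul, hZ0]
        exact Finset.sum_le_sum fun p _ => norm_cut_le _ _
      | succ j ih =>
        have hD : D + n * (j + 1) = D + n * j + n := by ring
        rw [hD]
        have h0 : ∀ T ∈ 𝒯, cut (Far S V (D + n * j)) (vl S z T) = 0 := by
          intro T hT
          ext x
          by_cases hx : x ∈ Far S V (D + n * j)
          · rw [cut_of_mem hx, hV T hT x (far_anti hS V (Nat.le_add_right _ _) hx)]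
            rfl
          · rw [cut_of_not_mem hx]
            rfl
        have h1 : ∀ p ∈ RS S, ‖cut (Far S V (D + n * j + n)) (Z (j + 1) p)‖ ≤
            ∑ q ∈ RS S, ‖TT (X p q)‖ * ‖cut (Far S V (D + n * j)) (Z j q)‖ := by
          intro p hp
          rw [hZid j p hp, map_add, map_sum, map_sum]
          have h2 : ∑ T ∈ 𝒯, cut (Far S V (D + n * j + n)) (TT (α p T) (vl S z T)) = 0 := by
            apply Finset.sum_eq_zero
            intro T hT
            rw [loc_TT hS (hα p hp T hT), h0 T hT, map_zero, map_zero]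
          rw [h2, zero_add]
          refine (norm_sum_le _ _).trans (Finset.sum_le_sum fun q hq => ?_)
          rw [loc_TT hS (hXs p hp q hq)]
          exact (norm_cut_le _ _).trans (ContinuousLinearMap.le_opNorm _ _)
        refine (Finset.sum_le_sum h1).trans ((hXsum _ fun q => norm_nonneg _).trans ?_)
        rw [pow_succ]
        nlinarith
    refine ⟨fun J => ?_, fun J J' hJ g hg => ?_⟩
    · have h1 : ∑ p ∈ RS S, ‖cut (Far S V (D + (n + 2) * (J + 1))) (z p - d1 (β J) p)‖ ≤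
          ∑ p ∈ RS S, ‖cut (Far S V (D + n * J)) (Z J p)‖ := by
        refine Finset.sum_le_sum fun p _ => ?_
        rw [hβZ]
        exact norm_cut_mono (far_anti hS V (by nlinarith)) _
      exact h1.trans (hloc J)
    · -- the difference of two primitives
      have hRloc : ∀ i, i < J → ‖cut (Far S V (D + (n + 2) * (J + 1))) (Rh S t (Z i) g)‖ ≤
          C2 * ((1 / 4) ^ i * M z) := by
        intro i hi
        have hle : D + n * i + n ≤ D + (n + 2) * (J + 1) := by nlinarith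
        refine (norm_cut_mono (far_anti hS V hle) _).trans ?_
        unfold Rh
        rw [map_sum]
        refine (norm_sum_le _ _).trans ?_
        have h1 : ∀ q ∈ RS S, ‖cut (Far S V (D + n * i + n)) (TT (t g q) (Z i q))‖ ≤
            ‖TT (t g q)‖ * ((1 / 4) ^ i * M z) := by
          intro q hq
          rw [loc_TT hS (ht g hg q hq)]
          refine (norm_cut_le _ _).trans ((ContinuousLinearMap.le_opNorm _ _).trans ?_)
          refine mul_le_mul_of_nonneg_left ?_ (norm_nonneg _)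
          exact (Finset.single_le_sum (f := fun q => ‖cut (Far S V (D + n * i)) (Z i q)‖)
            (fun _ _ => norm_nonneg _) hq).trans (hloc i)
        refine (Finset.sum_le_sum h1).trans ?_
        rw [← Finset.sum_mul]
        refine mul_le_mul_of_nonneg_right ?_ (mul_nonneg (by positivity) (hM0 z))
        exact Finset.single_le_sum (f := fun g => ∑ q ∈ RS S, ‖TT (t g q)‖)
          (fun g _ => Finset.sum_nonneg fun q _ => norm_nonneg _) hg
      have hdiff : β J g - β J' g = ∑ i ∈ Finset.Ico J' J, Rh S t (Z i) g := by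
        simp only [hβ]
        rw [Finset.sum_Ico_eq_sub _ hJ]
      rw [hdiff, map_sum]
      refine (norm_sum_le _ _).trans ?_
      refine (Finset.sum_le_sum fun i hi => hRloc i (Finset.mem_Ico.1 hi).2).trans ?_
      have hgeo : ∑ i ∈ Finset.Ico J' J, (1 / 4 : ℝ) ^ i ≤ 2 * (1 / 4) ^ J' := by
        have h2 : ∀ k, ∑ i ∈ Finset.Ico J' (J' + k), (1 / 4 : ℝ) ^ i ≤
            2 * (1 / 4) ^ J' - 2 * (1 / 4) ^ (J' + k) := by
          intro k
          induction k with
          | zero =>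
            rw [add_zero, Finset.Ico_self, Finset.sum_empty, sub_self]
          | succ k ih =>
            rw [← add_assoc, Finset.sum_Ico_succ_top (by omega)]
            have : (0 : ℝ) < (1 / 4) ^ (J' + k) := by positivity
            rw [pow_succ]
            linarith
        obtain ⟨k, rfl⟩ := Nat.exists_eq_add_of_le hJ
        have h3 := h2 k
        have : (0 : ℝ) < (1 / 4) ^ (J' + k) := by positivity
        linarith
      rw [← Finset.mul_sum, ← Finset.sum_mul]
      have h4 : 0 ≤ C2 * M z := mul_nonneg hC20 (hM0 z)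
      have h5 : (0 : ℝ) ≤ (1 / 4) ^ J' * M z := mul_nonneg (by positivity) (hM0 z)
      calc C2 * ((∑ i ∈ Finset.Ico J' J, (1 / 4 : ℝ) ^ i) * M z) =
            (∑ i ∈ Finset.Ico J' J, (1 / 4 : ℝ) ^ i) * (C2 * M z) := by ring
        _ ≤ 2 * (1 / 4) ^ J' * (C2 * M z) := mul_le_mul_of_nonneg_right hgeo h4
        _ ≤ (1 + C2 * (2 + 2 * C1)) * (1 / 4) ^ J' * M z := by
          have h6 : 0 ≤ C2 * C1 := mul_nonneg hC20 hC10
          nlinarith [mul_nonneg h6 h5]

end Pool.Agent.LibFR83
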