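import Pool.Agent.LibFR83.Defs

/-!
Row P2: real primitives of integral chains.
-/

set_option autoImplicit false

namespace Pool.Agent.LibFR83

open Pool.Agent.LibZIS Pool.Agent.LibCod83 Pool.Agent.LibQF83 Pool.Agent.LibDehn83
open scoped Pointwise

variable {G : Type} [Group G] [DecidableEq G]

/-- as `LibDehn83.int_primitive`. -/
theorem int_primitive2 {S : Finset G} (𝒯 : Finset (Tri G →₀ ℤ))
    (h𝒯 : ∀ T ∈ 𝒯, InS S T ∧ bdry T = 0)
    (h : ∃ (R0 : ℕ) (A : ℝ), 1 ≤ A ∧ ∀ (F : Finset G) (z : G × G → Raw.L2 G),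
      (∀ p ∈ RS S, SF F (z p)) → ∃ β : ℕ → G → Raw.L2 G,
        (∀ J, ∀ g ∈ S, SF (S ^ (R0 * (J + 1)) * F) (β J g) ∧
          ‖β J g‖ ≤ A * (J + 1) * ∑ p ∈ RS S, ‖z p‖) ∧
        ∀ (V : Set G) (D : ℕ), (∀ T ∈ 𝒯, ∀ x ∈ Far S V D, vl S z T x = 0) →
          (∀ J, ∑ p ∈ RS S, ‖cut (Far S V (D + R0 * (J + 1))) (z p - d1 (β J) p)‖ ≤
            (1 / 4) ^ J * ∑ p ∈ RS S, ‖z p‖) ∧
          ∀ J J' : ℕ, J' ≤ J → ∀ g ∈ S,
            ‖cut (Far S V (D + R0 * (J + 1))) (β J g - β J' g)‖ ≤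
              A * (1 / 4) ^ J' * ∑ p ∈ RS S, ‖z p‖) :
    ∃ (R0 : ℕ) (A : ℝ), 1 ≤ A ∧ ∀ (z : Tri G →₀ ℤ) (N : ℝ), 0 ≤ N →
      ∑ q ∈ z.support, ((z q : ℤ) : ℝ) ^ 2 ≤ N ^ 2 → ∃ (β : ℕ → G → G → ℝ),
        (∀ J, ∀ g ∈ S, ∀ x, β J g x ≠ 0 → x ∈ S ^ (R0 * (J + 1)) * z.support.image Prod.snd) ∧
        (∀ J, ∀ g ∈ S, ∀ F : Finset G,
          ∑ x ∈ F, (β J g x) ^ 2 ≤ (A * (J + 1) * ((RS S).card * N)) ^ 2) ∧
        ∀ (V : Set G) (D : ℕ), (∀ T ∈ 𝒯, ∀ x ∈ Far S V D, vz z T x = 0) →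
          (∀ J, ∃ e : G × G → Raw.L2 G,
            (∀ p ∈ RS S, ∀ x, |(z (p, x) : ℝ) - dE (β J) (p, x)| ≤ ‖e p x‖) ∧
            ∀ p ∈ RS S, ‖cut (Far S V (D + R0 * (J + 1))) (e p)‖ ≤
              (1 / 4) ^ J * ((RS S).card * N)) ∧
          ∀ J J' : ℕ, J' ≤ J → ∀ g ∈ S, ∀ x ∈ Far S V (D + R0 * (J + 1)),
            |β J g x - β J' g x| ≤ A * (1 / 4) ^ J' * ((RS S).card * N) := by
  obtain ⟨R0, A, hA, h⟩ := h
  refine ⟨R0, A, hA, fun z N hN hz => ?_⟩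
  have hex : ∀ p : G × G, ∃ v : Raw.L2 G, (∀ x, v x = (z (p, x) : ℂ)) ∧
      ‖v‖ ^ 2 = ∑ x ∈ z.support.image Prod.snd, ‖(z (p, x) : ℂ)‖ ^ 2 := fun p =>
    exists_L2 _ _ fun x hx => by
      refine Finset.mem_image.2 ⟨(p, x), ?_, rfl⟩
      rw [Finsupp.mem_support_iff]
      intro h0
      exact hx (by rw [h0]; simp)
  choose zc hzc hzn using hex
  have hSF : ∀ p ∈ RS S, SF (z.support.image Prod.snd) (zc p) := by
    intro p _ x hx
    rw [hzc] at hx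
    refine Finset.mem_image.2 ⟨(p, x), ?_, rfl⟩
    rw [Finsupp.mem_support_iff]
    intro h0
    exact hx (by rw [h0]; simp)
  have hn : ∀ p, ‖zc p‖ ≤ N := by
    intro p
    refine abs_le_of_sq_le_sq' ?_ hN |>.2
    rw [hzn p]
    refine le_trans ?_ hz
    have h2 : ∑ x ∈ z.support.image Prod.snd, ‖(z (p, x) : ℂ)‖ ^ 2 =
        ∑ q ∈ (z.support.image Prod.snd).image (fun x => (p, x)), ((z q : ℤ) : ℝ) ^ 2 := by
      rw [Finset.sum_image fun a _ b _ hab => (Prod.mk.inj hab).2]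
      refine Finset.sum_congr rfl fun x _ => ?_
      rw [Complex.norm_intCast, sq_abs]
    rw [h2]
    have h3 : ∑ q ∈ (z.support.image Prod.snd).image (fun x => (p, x)), ((z q : ℤ) : ℝ) ^ 2 =
        ∑ q ∈ ((z.support.image Prod.snd).image (fun x => (p, x))).filter (fun q => z q ≠ 0),
          ((z q : ℤ) : ℝ) ^ 2 := by
      symm
      refine Finset.sum_filter_of_ne fun q _ hq h0 => hq ?_
      rw [h0]
      simp
    rw [h3]
    refine Finset.sum_le_sum_of_subset_of_nonneg (fun q hq => ?_) fun _ _ _ => by positivity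
    rw [Finsupp.mem_support_iff]
    exact (Finset.mem_filter.1 hq).2
  have hsum : ∑ p ∈ RS S, ‖zc p‖ ≤ (RS S).card * N := by
    refine (Finset.sum_le_sum fun p _ => hn p).trans ?_
    rw [Finset.sum_const, nsmul_eq_mul]
  obtain ⟨β', hβ', hcut⟩ := h _ zc hSF
  have hA0 : 0 ≤ A := by linarith
  refine ⟨fun J g x => (β' J g x).re, fun J g hg x hx => ?_, fun J g hg F => ?_, fun V D hV => ?_⟩
  · refine (hβ' J g hg).1 x fun h0 => hx ?_
    show (β' J g x).re = 0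
    rw [h0]
    simp
  · refine le_trans ?_ (pow_le_pow_left₀ (norm_nonneg _)
      ((hβ' J g hg).2.trans (mul_le_mul_of_nonneg_left hsum (by positivity))) 2)
    refine le_trans (Finset.sum_le_sum fun x _ => ?_) (sum_sq_le (β' J g) F)
    exact sq_le_sq' (by
      have := Complex.abs_re_le_norm (β' J g x)
      linarith [neg_abs_le (β' J g x).re]) ((le_abs_self _).trans (Complex.abs_re_le_norm _))
  · have hvl : ∀ T ∈ 𝒯, ∀ x ∈ Far S V D, vl S zc T x = 0 := by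
      intro T hT x hx
      rw [vl_apply z zc hzc (h𝒯 T hT).1, hV T hT x hx]
      simp
    obtain ⟨hcut1, hcut2⟩ := hcut V D hvl
    refine ⟨fun J => ⟨fun p => zc p - d1 (β' J) p, fun p hp x => ?_, fun p hp => ?_⟩,
      fun J J' hJ g hg x hx => ?_⟩
    · have h3 : ((z (p, x) : ℝ) - dE (fun g x => (β' J g x).re) (p, x)) =
          ((zc p - d1 (β' J) p : Raw.L2 G) x).re := by
        have h4 : (zc p - d1 (β' J) p : Raw.L2 G) x =
            zc p x - (β' J p.1 x + β' J p.2 (p.1⁻¹ * x) - β' J (p.1 * p.2) x) := rfl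
        rw [h4, hzc]
        simp only [dE, Complex.sub_re, Complex.add_re, Complex.intCast_re]
      rw [h3]
      exact Complex.abs_re_le_norm _
    · refine le_trans ?_ ((hcut1 J).trans (mul_le_mul_of_nonneg_left hsum (by positivity)))
      exact Finset.single_le_sum (f := fun p => ‖cut (Far S V (D + R0 * (J + 1)))
        (zc p - d1 (β' J) p)‖) (fun _ _ => norm_nonneg _) hp
    · have h3 : (β' J g x).re - (β' J' g x).re = ((β' J g - β' J' g : Raw.L2 G) x).re := rfl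
      show |(β' J g x).re - (β' J' g x).re| ≤ _
      rw [h3]
      refine (Complex.abs_re_le_norm _).trans ((apply_le_norm_cut hx _).trans ?_)
      exact (hcut2 J J' hJ g hg).trans (mul_le_mul_of_nonneg_left hsum (by positivity))

end Pool.Agent.LibFR83
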