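import Pool.Agent.LibFR83.Defs

/-!
Row P3: the holonomy of a coarse primitive, estimated by a precise one.
-/

set_option autoImplicit false

namespace Pool.Agent.LibFR83

open Pool.Agent.LibZIS Pool.Agent.LibCod83 Pool.Agent.LibQF83 Pool.Agent.LibDehn83
open scoped Pointwise

variable {G : Type} [Group G]

/-- the values on a path of two functions which are close along the path. -/
lemma path_close (S : Finset G) (β β' : G → G → ℝ) (Ω : Set G) {ε' : ℝ}
    (hβ : ∀ g ∈ S, ∀ x ∈ Ω, |β g x - β' g x| ≤ ε') (w : List G) (x : G)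
    (hw : ∀ s ∈ w, s ∈ S) (h : ∀ w' : List G, w' <+: w → w'.prod⁻¹ * x ∈ Ω) :
    |prE β (chn w x) - prE β' (chn w x)| ≤ w.length * ε' := by
  induction w generalizing x with
  | nil =>
    rw [chn_nil]
    simp [prE]
  | cons s w ih =>
    have h1 := ih (s⁻¹ * x) (fun t ht => hw t (List.mem_cons_of_mem _ ht)) fun w' hw' => by
      have h2 := h (s :: w') (by rw [List.cons_prefix_cons]; exact ⟨rfl, hw'⟩)
      rw [List.prod_cons, mul_inv_rev, mul_assoc] at h2
      exact h2
    have h3 := h [] List.nil_prefix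
    rw [List.prod_nil, inv_one, one_mul] at h3
    have h4 := hβ s (hw s List.mem_cons_self) x h3
    rw [chn_cons, prE_add, prE_add, H_prE_single, H_prE_single]
    have h5 : ((1 : ℤ) : ℝ) * β s x + prE β (chn w (s⁻¹ * x)) -
        (((1 : ℤ) : ℝ) * β' s x + prE β' (chn w (s⁻¹ * x))) =
        (β s x - β' s x) + (prE β (chn w (s⁻¹ * x)) - prE β' (chn w (s⁻¹ * x))) := by
      push_cast
      ring
    rw [h5]
    refine (abs_add_le _ _).trans ?_
    rw [List.length_cons]
    push_cast
    linarith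

/-- as `LibDehn83.holonomy`: `β` is a precise primitive of `z`, `β'` is close to `β`; the loops
bound chains of mass `A`. -/
theorem holonomy2 [DecidableEq G] {S : Finset G} (hS : Sys S) (β β' : G → G → ℝ) (z : Tri G → ℤ)
    (V : Set G) (D m Φ : ℕ) {A ε ε' : ℝ} (hε : 0 ≤ ε) (hε' : 0 ≤ ε') (hA : 0 ≤ A)
    (hz : ∀ p ∈ RS S, ∀ x ∈ Far S V D, |(z (p, x) : ℝ) - dE β (p, x)| ≤ ε)
    (hβ : ∀ g ∈ S, ∀ x ∈ Far S V D, |β g x - β' g x| ≤ ε')
    (hfill : ∀ w : List G, Loop S w → w.length ≤ 4 * m → Fil S w A Φ) :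
    ∃ s : UC G, AC s S (Far S V (D + 4 * m + Φ)) m
        (2 * Real.pi * ((A + 4 * m) * ε + 4 * m * ε')) ∧
      ∀ g ∈ S, g ≠ 1 → ∀ x, s.σ g x = ex (β' g x) := by
  obtain ⟨W, hW, hW1, hWS⟩ := exists_geod hS
  refine ⟨⟨fun g x => ex (prE β' (chn (W g) x)), fun g x => norm_ex _, fun x => ?_⟩, ?_, ?_⟩
  · show ex (prE β' (chn (W 1) x)) = 1
    rw [hW1, chn_nil]
    have h1 : prE β' (0 : Ed G →₀ ℤ) = ((0 : ℤ) : ℝ) := by simp [prE]
    rw [h1, ex_int]
  · intro g hg h hh x hx
    show ‖ex (prE β' (chn (W (g * h)) x)) -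
      ex (prE β' (chn (W g) x)) * ex (prE β' (chn (W h) (g⁻¹ * x)))‖ ≤ _
    -- points near `x`
    have hnear : ∀ w' : List G, (∀ s ∈ w', s ∈ S) → w'.length ≤ 4 * m →
        w'.prod⁻¹ * x ∈ Far S V (D + Φ) := by
      intro w' hw' hl
      have h1 : w'.prod ∈ S ^ (4 * m) := pow_mono hS hl (prod_mem_pow hw')
      apply far_shift hS h1
      have e : D + Φ + 4 * m = D + 4 * m + Φ := by omega
      rw [e]
      exact hx
    have hlg : (W g).length ≤ m := by
      rw [(hW g).2.2]
      exact len_le hg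
    have hlh : (W h).length ≤ m := by
      rw [(hW h).2.2]
      exact len_le hh
    have hlgh : (W (g * h)).length ≤ 2 * m := by
      rw [(hW (g * h)).2.2]
      have := mul_mem_pow hg hh
      rw [← two_mul] at this
      exact len_le this
    set w : List G := W g ++ W h ++ rv (W (g * h)) with hw
    have hwS : ∀ s ∈ w, s ∈ S := by
      intro s hs
      rw [hw, List.mem_append, List.mem_append] at hs
      rcases hs with (hs | hs) | hs
      · exact (hW g).1 s hs
      · exact (hW h).1 s hs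
      · exact rv_mem hS (hW (g * h)).1 s hs
    have hwp : w.prod = 1 := by
      rw [hw, List.prod_append, List.prod_append, rv_prod, (hW g).2.1, (hW h).2.1,
        (hW (g * h)).2.1, mul_inv_cancel]
    have hwl : w.length ≤ 4 * m := by
      rw [hw, List.length_append, List.length_append, rv_length]
      omega
    obtain ⟨T, hT1, hT2, hT3, hT4⟩ := hfill w ⟨hwS, hwp⟩ hwl
    obtain ⟨n1, hn1⟩ := exists_int_bdry β z (shT x T) (ε := ε) (by
      intro p hp
      have hpS := (hT1.shT x) p hp
      have hpR : p.1 ∈ RS S :=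
        Finset.mem_filter.2 ⟨Finset.mem_product.2 ⟨hpS.1, hpS.2.1⟩, hpS.2.2⟩
      apply hz p.1 hpR
      have h1 : (p.1, p.2 * x⁻¹) ∈ T.support := by
        rw [Finsupp.mem_support_iff] at hp ⊢
        rwa [shT_apply] at hp
      have h2 := hT4 _ h1
      simp only [Far, Set.mem_ofPred_eq] at h2
      push Not at h2
      obtain ⟨v, ⟨w', hw', hv⟩, h3⟩ := h2
      have h4 := hnear w' (fun s hs => hwS s (hw'.subset hs)) (hw'.length_le.trans hwl)
      have h5 := far_shift' hS h3 h4
      rw [hv] at h5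
      have e : p.2 * x⁻¹ * w'.prod⁻¹⁻¹ * (w'.prod⁻¹ * x) = p.2 := by group
      rw [e] at h5
      exact h5)
    obtain ⟨T2, hU1, hU2, hU3, hU4⟩ := exists_rv hS (W (g * h)) (hW (g * h)).1 x
    obtain ⟨n2, hn2⟩ := exists_int_bdry β z T2 (ε := ε) (by
      intro p hp
      have hpS := hU1 p hp
      have hpR : p.1 ∈ RS S :=
        Finset.mem_filter.2 ⟨Finset.mem_product.2 ⟨hpS.1, hpS.2.1⟩, hpS.2.2⟩
      apply hz p.1 hpR
      obtain ⟨w', hw', e⟩ := hU4 p hp
      rw [e]
      exact far_anti hS V (by omega) (hnear w'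
        (fun s hs => (hW (g * h)).1 s (hw'.subset hs)) ((hw'.length_le.trans hlgh).trans (by omega))))
    rw [bdry_shT, hT2, shE_chn, one_mul, mass_shT] at hn1
    have e1 : chn w x = chn (W g) x + chn (W h) (g⁻¹ * x) + chn (rv (W (g * h))) ((g * h)⁻¹ * x) := by
      rw [hw, chn_append, chn_append, List.prod_append, (hW g).2.1, (hW h).2.1]
    rw [e1, prE_add, prE_add] at hn1
    rw [hU2, prE_add, (hW (g * h)).2.1] at hn2
    rw [← ex_add]
    refine (norm_ex_sub _ _ (n2 - n1)).trans ?_
    apply mul_le_mul_of_nonneg_left _ (by positivity)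
    have b1 : (mass T : ℝ) * ε ≤ A * ε := mul_le_mul_of_nonneg_right hT3 hε
    have b2 : (mass T2 : ℝ) * ε ≤ 4 * m * ε := by
      apply mul_le_mul_of_nonneg_right _ hε
      have : mass T2 ≤ 4 * m := hU3.trans (by omega)
      exact_mod_cast this
    have c1 := abs_le.1 (hn1.trans b1)
    have c2 := abs_le.1 (hn2.trans b2)
    have hdeep : ∀ (w' : List G), (∀ s ∈ w', s ∈ S) → w'.length ≤ 4 * m →
        w'.prod⁻¹ * x ∈ Far S V D := fun w' h1 h2 => far_anti hS V (by omega) (hnear w' h1 h2)
    have d1 : |prE β (chn (W g) x) - prE β' (chn (W g) x)| ≤ m * ε' := by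
      refine (path_close S β β' (Far S V D) hβ (W g) x (hW g).1 fun w' hw' => ?_).trans ?_
      · exact hdeep w' (fun s hs => (hW g).1 s (hw'.subset hs))
          ((hw'.length_le.trans hlg).trans (by omega))
      · exact mul_le_mul_of_nonneg_right (by exact_mod_cast hlg) hε'
    have d2 : |prE β (chn (W h) (g⁻¹ * x)) - prE β' (chn (W h) (g⁻¹ * x))| ≤ m * ε' := by
      refine (path_close S β β' (Far S V D) hβ (W h) (g⁻¹ * x) (hW h).1 fun w' hw' => ?_).trans ?_
      · have h1 := hdeep (W g ++ w') (fun s hs => by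
          rcases List.mem_append.1 hs with hs | hs
          · exact (hW g).1 s hs
          · exact (hW h).1 s (hw'.subset hs)) (by
          rw [List.length_append]
          have := hw'.length_le
          omega)
        rw [List.prod_append, (hW g).2.1, mul_inv_rev, mul_assoc] at h1
        exact h1
      · exact mul_le_mul_of_nonneg_right (by exact_mod_cast hlh) hε'
    have d3 : |prE β (chn (W (g * h)) x) - prE β' (chn (W (g * h)) x)| ≤ 2 * m * ε' := by
      refine (path_close S β β' (Far S V D) hβ (W (g * h)) x (hW (g * h)).1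
        fun w' hw' => ?_).trans ?_
      · exact hdeep w' (fun s hs => (hW (g * h)).1 s (hw'.subset hs))
          ((hw'.length_le.trans hlgh).trans (by omega))
      · exact mul_le_mul_of_nonneg_right (by exact_mod_cast hlgh) hε'
    have c3 := abs_le.1 d1
    have c4 := abs_le.1 d2
    have c5 := abs_le.1 d3
    push_cast
    rw [abs_le]
    constructor <;> nlinarith
  · intro g hg hg1 x
    show ex (prE β' (chn (W g) x)) = ex (β' g x)
    rw [hWS g hg hg1, chn_cons, chn_nil, add_zero, H_prE_single]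
    simp

end Pool.Agent.LibFR83
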